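import Pool.Agent.MWG.Stmts

/-!
Block MWG, row JPM: all edges are join prime.
-/

set_option autoImplicit false

namespace Pool.Agent.MWG.H69

open Pool.Agent.Helper14_MV Pool.Agent.Helper2_MV Pool.Agent.MVO Pool.Agent.MWL Pool.Agent.MWS
open Pool.Agent.MWG

theorem jpm (h1 : FxlStmt) (h2 : FxrStmt) (h3 : FxkStmt) (h4 : JglStmt) (h5 : JgrStmt)
    (h6 : AlzStmt) (h7 : GmzStmt) (h8 : KpzStmt) : JpmStmt := by
  intro β hβ k a b i hr
  have hdis := hr.vis.2.2.2
  by_cases hlf : Lf b i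
  · have he : eR k a b i = eL k a b i := by
      unfold eR eL mR mL
      rw [if_pos hlf, if_pos hlf]
    rw [he, and_self]
    by_cases ht : ∃ j1 j2 j3, i < j1 ∧ j1 < j2 ∧ j2 < j3 ∧ j3 ≤ k ∧
      ((a j1 ≠ 0 ∧ b j2 ≠ 0 ∧ a j3 ≠ 0) ∨ (b j1 ≠ 0 ∧ a j2 ≠ 0 ∧ b j3 ≠ 0))
    · exact h4 β hβ k a b i hr (fun θ hθ hF => h3 β θ hβ hθ hF k a b i hr hlf ht)
    · apply h8 β hβ k a b i hr hlf
      by_contra hcon
      push Not at hcon
      obtain ⟨⟨x1, y1, hx1, hy1, hx1k, hy1k, hax1, hby1, hle1⟩,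
        ⟨x2, y2, hx2, hy2, hx2k, hy2k, hax2, hby2, hle2⟩⟩ := hcon
      have hlt1 : y1 < x1 := by
        rcases Nat.lt_or_ge y1 x1 with h | h
        · exact h
        · have hxy : x1 = y1 := le_antisymm h hle1
          exfalso
          rcases hdis x1 hx1 hx1k with h0 | h0
          · exact hax1 h0
          · rw [hxy] at h0
            exact hby1 h0
      have hlt2 : x2 < y2 := by
        rcases Nat.lt_or_ge x2 y2 with h | h
        · exact h
        · have hxy : x2 = y2 := le_antisymm hle2 h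
          exfalso
          rcases hdis x2 hx2 hx2k with h0 | h0
          · exact hax2 h0
          · rw [hxy] at h0
            exact hby2 h0
      rcases Nat.lt_trichotomy y2 x1 with h | h | h
      · exact ht ⟨x2, y2, x1, hx2, hlt2, h, hx1k, Or.inl ⟨hax2, hby2, hax1⟩⟩
      · rcases hdis x1 hx1 hx1k with h0 | h0
        · exact hax1 h0
        · rw [← h] at h0
          exact hby2 h0
      · exact ht ⟨y1, x1, y2, hy1, hlt1, h, hy2k, Or.inr ⟨hby1, hax1, hby2⟩⟩
  · constructor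
    · by_cases ht : ∃ j, i < j ∧ j ≤ k ∧ b j ≠ 0
      · exact h4 β hβ k a b i hr (fun θ hθ hF => h1 β θ hβ hθ hF k a b i hr hlf ht)
      · apply h6 β hβ k a b i hr hlf
        intro j hj hjk
        by_contra hb
        exact ht ⟨j, hj, hjk, hb⟩
    · by_cases ht : ((2 ≤ ∑ j ∈ Finset.range i, b j) ∨
        ∃ j1 j2, i < j1 ∧ j1 < j2 ∧ j2 ≤ k ∧ a j1 ≠ 0 ∧ b j2 ≠ 0)
      · exact h5 β hβ k a b i hr (fun θ hθ hF => h2 β θ hβ hθ hF k a b i hr hlf ht)
      · push Not at ht
        apply h7 β hβ k a b i hr hlf (by omega)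
        intro j1 j2 hij1 hj1k hj2k haj1 hbj2
        rcases Nat.lt_trichotomy j2 j1 with h | h | h
        · exact h
        · exfalso
          rcases hdis j1 hij1 hj1k with h0 | h0
          · exact haj1 h0
          · rw [← h] at h0
            exact hbj2 h0
        · exact absurd (ht.2 j1 j2 hij1 h hj2k haj1) hbj2

end Pool.Agent.MWG.H69
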